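import Pool.Agent.H12.QN.Stmts

/-! Row DUA of board `qnb` (helper78): the dual inequality. -/

namespace Pool.QN

open Finset MeasureTheory

namespace DUAaux

theorem ee_add (s t : ℝ) : ee (s + t) = ee s * ee t := by
  unfold ee
  rw [← Complex.exp_add]
  congr 1
  push_cast
  ring

theorem ee_norm (t : ℝ) : ‖ee t‖ = 1 := by
  unfold ee
  exact Complex.norm_exp_ofReal_mul_I _

theorem ee_conj (t : ℝ) : (starRingEnd ℂ) (ee t) = ee (-t) := by
  unfold ee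
  rw [← Complex.exp_conj, map_mul, Complex.conj_I, Complex.conj_ofReal]
  congr 1
  push_cast
  ring

theorem ee_cont : Continuous ee := by
  unfold ee
  fun_prop

theorem ee_zero : ee 0 = 1 := by
  unfold ee
  simp

theorem DD_cont (L : ℕ) : Continuous (DD L) := by
  unfold DD
  refine continuous_finset_sum _ fun n _ => ?_
  exact ee_cont.comp (by fun_prop)

theorem Fj_cont (j : ℕ) : Continuous (Fj j) := by
  unfold Fj
  exact ((DD_cont _).norm.pow 2).div_const _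

theorem Fj_nonneg (j : ℕ) (t : ℝ) : 0 ≤ Fj j t := by
  unfold Fj
  positivity

theorem Fj_le (j : ℕ) (t : ℝ) : Fj j t ≤ 2 ^ j := by
  unfold Fj
  have h1 : ‖DD (2 ^ j) t‖ ≤ 2 ^ j := by
    unfold DD
    refine (norm_sum_le _ _).trans ?_
    simp [ee_norm]
  have h2 : (0:ℝ) < 2 ^ j := by positivity
  rw [div_le_iff₀ h2]
  have h3 := norm_nonneg (DD (2 ^ j) t)
  nlinarith

instance : IsFiniteMeasure mu := by
  unfold mu
  infer_instance

theorem phi_aesm {c B : ℝ} {φ φ1 φ2 : ℝ → ℝ} (h : Cur c B φ φ1 φ2) :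
    AEStronglyMeasurable φ mu := by
  unfold mu
  refine ContinuousOn.aestronglyMeasurable (fun x hx => (h.d1 x hx).continuousWithinAt) ?_
  exact measurableSet_Icc

theorem uu_aesm {c B : ℝ} {φ φ1 φ2 : ℝ → ℝ} (h : Cur c B φ φ1 φ2) (d r : ℤ) (k : ℕ) :
    AEStronglyMeasurable (uu d r φ k) mu := by
  unfold uu
  refine ee_cont.comp_aestronglyMeasurable ?_
  refine AEStronglyMeasurable.add ?_ ?_
  · exact (continuous_const.mul continuous_id).aestronglyMeasurable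
  · exact (phi_aesm h).const_mul _

theorem term_int {c B : ℝ} {φ φ1 φ2 : ℝ → ℝ} (h : Cur c B φ φ1 φ2) (g : ℝ → ℝ)
    (hg : AEStronglyMeasurable g mu) (M : ℝ) (hM : ∀ x, |g x| ≤ M) (j : ℕ) (q : ℝ) :
    Integrable (fun p : ℝ × ℝ => g p.1 * g p.2 * Fj j (q * (φ p.1 - φ p.2))) (mu.prod mu) := by
  have hm : AEStronglyMeasurable
      (fun p : ℝ × ℝ => g p.1 * g p.2 * Fj j (q * (φ p.1 - φ p.2))) (mu.prod mu) := by
    refine AEStronglyMeasurable.mul (AEStronglyMeasurable.mul hg.comp_fst hg.comp_snd) ?_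
    refine (Fj_cont j).comp_aestronglyMeasurable ?_
    exact ((phi_aesm h).comp_fst.sub (phi_aesm h).comp_snd).const_mul q
  refine Integrable.of_bound hm (M * M * 2 ^ j) ?_
  refine Filter.Eventually.of_forall fun p => ?_
  rw [norm_mul, norm_mul, Real.norm_eq_abs, Real.norm_eq_abs, Real.norm_eq_abs,
    abs_of_nonneg (Fj_nonneg _ _)]
  have h0 : 0 ≤ M := (abs_nonneg _).trans (hM 0)
  refine mul_le_mul (mul_le_mul (hM _) (hM _) (abs_nonneg _) h0) (Fj_le _ _) (Fj_nonneg _ _) ?_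
  positivity

theorem ker_le (hW : WEAStmt) (K : ℕ) (d r : ℤ) (φ : ℝ → ℝ) (x y : ℝ) :
    ‖∑ k ∈ range K, uu d r φ k x * (starRingEnd ℂ) (uu d r φ k y)‖ ^ 2 ≤
      32 * WW K ((d:ℝ) ^ 2 * (φ x - φ y)) := by
  have h1 := hW K d r (x - y) (φ x - φ y)
  have h2 : ∑ k ∈ range K, uu d r φ k x * (starRingEnd ℂ) (uu d r φ k y) =
      ∑ k ∈ range K, ee (((r:ℝ) + d * k) * (x - y) + ((r:ℝ) + d * k) ^ 2 * (φ x - φ y)) := by
    refine sum_congr rfl fun k _ => ?_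
    unfold uu
    rw [ee_conj, ← ee_add]
    congr 1
    ring
  rw [h2]
  exact h1

end DUAaux

open DUAaux

theorem dua_thm (hWEA : WEAStmt) (hDUB : DUBStmt) (hGRM : GRMStmt) (hFEI : FEIStmt)
    (hCNT : CNTStmt) : DUAStmt := by
  intro c B ε hε
  obtain ⟨C1, hC1, hcnt⟩ := hCNT ε hε
  obtain ⟨C2, hC2, hdub⟩ := hDUB c B
  refine ⟨32 * C1 * (1 + C2), by positivity, ?_⟩
  intro φ φ1 φ2 hcur d r hd K hK f hf hfb
  obtain ⟨M, hM⟩ := hfb
  have hgrm := hGRM K (uu d r φ) f (fun k => uu_aesm hcur d r k)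
    (fun k x => by unfold uu; rw [ee_norm]) hf ⟨M, hM⟩
  set A : ℝ := ∫ x, ‖f x‖ ∂mu with hA
  set E : ℝ := ∫ x, ‖f x‖ ^ 2 ∂mu with hE
  have hA0 : 0 ≤ A := integral_nonneg fun x => norm_nonneg _
  have hE0 : 0 ≤ E := integral_nonneg fun x => by positivity
  have hg : AEStronglyMeasurable (fun x => ‖f x‖) mu := hf.norm
  have hgM : ∀ x, |(fun x => ‖f x‖) x| ≤ M := fun x => by
    simpa using hM x
  have hint : ∀ (j : ℕ) (q : ℝ), Integrable
      (fun p : ℝ × ℝ => ‖f p.1‖ * ‖f p.2‖ * Fj j (q * (φ p.1 - φ p.2))) (mu.prod mu) :=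
    fun j q => term_int hcur (fun x => ‖f x‖) hg M hgM j q
  let G : ℤ → ℝ := fun m => ‖∫ x, ((‖f x‖ : ℝ) : ℂ) * ee ((m : ℝ) * φ x) ∂mu‖ ^ 2
  have hG0 : ∀ m, 0 ≤ G m := fun m => by positivity
  -- the double integral
  have hWW : ∀ t : ℝ, WW K ((d:ℝ) ^ 2 * t) = ∑ h ∈ range K, ∑ j ∈ range (Nat.clog 2 K + 1),
      Fj j ((2 * (h:ℝ) * (d:ℝ) ^ 2) * t) := by
    intro t
    unfold WW
    refine sum_congr rfl fun h _ => sum_congr rfl fun j _ => ?_
    congr 1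
    ring
  have hI1 : ∫ p, ‖f p.1‖ * ‖f p.2‖ *
        ‖∑ k ∈ range K, uu d r φ k p.1 * (starRingEnd ℂ) (uu d r φ k p.2)‖ ^ 2 ∂(mu.prod mu) ≤
      ∫ p, 32 * ∑ h ∈ range K, ∑ j ∈ range (Nat.clog 2 K + 1),
        ‖f p.1‖ * ‖f p.2‖ * Fj j ((2 * (h:ℝ) * (d:ℝ) ^ 2) * (φ p.1 - φ p.2)) ∂(mu.prod mu) := by
    refine integral_mono_of_nonneg ?_ ?_ ?_
    · exact Filter.Eventually.of_forall fun p => by positivity
    · refine Integrable.const_mul ?_ _
      refine integrable_finset_sum _ fun h _ => integrable_finset_sum _ fun j _ => ?_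
      exact hint j _
    · refine Filter.Eventually.of_forall fun p => ?_
      have h1 := ker_le hWEA K d r φ p.1 p.2
      rw [hWW] at h1
      have h2 : 0 ≤ ‖f p.1‖ * ‖f p.2‖ := by positivity
      have h3 := mul_le_mul_of_nonneg_left h1 h2
      refine h3.trans (le_of_eq ?_)
      simp only [mul_sum]
      refine sum_congr rfl fun h _ => sum_congr rfl fun j _ => ?_
      ring
  have hI2 : ∫ p, 32 * ∑ h ∈ range K, ∑ j ∈ range (Nat.clog 2 K + 1),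
        ‖f p.1‖ * ‖f p.2‖ * Fj j ((2 * (h:ℝ) * (d:ℝ) ^ 2) * (φ p.1 - φ p.2)) ∂(mu.prod mu) =
      32 * ∑ h ∈ range K, ∑ j ∈ range (Nat.clog 2 K + 1),
        (∑ k ∈ range (2 ^ j), ∑ l ∈ range (2 ^ j), G (2 * h * d ^ 2 * ((k:ℤ) - l))) / 2 ^ j := by
    rw [integral_const_mul]
    congr 1
    rw [integral_finset_sum _ fun h _ => integrable_finset_sum _ fun j _ => hint j _]
    refine sum_congr rfl fun h _ => ?_
    rw [integral_finset_sum _ fun j _ => hint j _]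
    refine sum_congr rfl fun j _ => ?_
    have h1 := hFEI c B φ φ1 φ2 hcur (fun x => ‖f x‖) hg ⟨M, hgM⟩ j (2 * h * d ^ 2)
    have h2 : ((2 * (h:ℤ) * d ^ 2 : ℤ) : ℝ) = 2 * (h:ℝ) * (d:ℝ) ^ 2 := by push_cast; ring
    rw [h2] at h1
    exact h1
  obtain ⟨S, hS⟩ := hcnt K hK (d ^ 2) (by positivity) G hG0
  have hGz : G 0 = A ^ 2 := by
    change ‖∫ x, ((‖f x‖ : ℝ) : ℂ) * ee (((0:ℤ) : ℝ) * φ x) ∂mu‖ ^ 2 = A ^ 2
    have h1 : (fun x => ((‖f x‖ : ℝ) : ℂ) * ee (((0:ℤ) : ℝ) * φ x)) =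
        fun x => ((‖f x‖ : ℝ) : ℂ) := by
      funext x
      rw [Int.cast_zero, zero_mul, ee_zero, mul_one]
    rw [h1, integral_complex_ofReal, Complex.norm_real, Real.norm_eq_abs, sq_abs]
  have hGs : ∑ m ∈ S, G m ≤ C2 * E := by
    have h1 := hdub φ φ1 φ2 hcur (fun x => ((‖f x‖ : ℝ) : ℂ))
      (Complex.continuous_ofReal.comp_aestronglyMeasurable hg)
      ⟨M, fun x => by rw [Complex.norm_real, norm_norm]; exact hM x⟩ S
    refine h1.trans (le_of_eq ?_)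
    congr 1
    refine integral_congr_ae (Filter.Eventually.of_forall fun x => ?_)
    simp only [Complex.norm_real, norm_norm]
  have hKe : 0 ≤ (K:ℝ) ^ ε := Real.rpow_nonneg (Nat.cast_nonneg _) _
  have hmain : ∫ p, ‖f p.1‖ * ‖f p.2‖ *
        ‖∑ k ∈ range K, uu d r φ k p.1 * (starRingEnd ℂ) (uu d r φ k p.2)‖ ^ 2 ∂(mu.prod mu) ≤
      32 * (C1 * (K:ℝ) ^ ε * (K * A ^ 2 + C2 * E)) := by
    refine hI1.trans ?_
    rw [hI2]
    refine mul_le_mul_of_nonneg_left ?_ (by norm_num)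
    refine hS.trans ?_
    rw [hGz]
    refine mul_le_mul_of_nonneg_left ?_ (by positivity)
    linarith
  refine hgrm.trans ?_
  refine (mul_le_mul_of_nonneg_left hmain (by positivity)).trans ?_
  have hK0 : (0:ℝ) ≤ K := Nat.cast_nonneg _
  have h5 : (K:ℝ) * A ^ 2 + C2 * E ≤ (1 + C2) * (K * A ^ 2 + E) := by
    have h6 : 0 ≤ (K:ℝ) * A ^ 2 := by positivity
    nlinarith [mul_nonneg hC2.le h6]
  have h7 : A ^ 2 * (32 * (C1 * (K:ℝ) ^ ε * (K * A ^ 2 + C2 * E))) =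
      (A ^ 2 * (32 * (C1 * (K:ℝ) ^ ε))) * (K * A ^ 2 + C2 * E) := by ring
  rw [h7]
  refine (mul_le_mul_of_nonneg_left h5 (by positivity)).trans (le_of_eq ?_)
  ring

end Pool.QN
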